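import Pool.Agent.Helper721_F.Main

/-!
# Fractional list packing of degenerate graphs: `χ_ℓ^•(G) ≤ 7 ⌈d / 4⌉`

Every `d`-degenerate graph with `d ≥ 17` has fractional list packing number at most `7 ⌈d / 4⌉`,
and every `d`-degenerate graph with `d ≥ 6` has fractional list packing number at most `2 d - 1`.
-/

set_option autoImplicit false

namespace Pool.Agent.Results.MP_cf7e4d_co.SevenQuarters

/-- `G` is `d`-degenerate: every subgraph of `G` (with at least one vertex) has a vertex of degree
at most `d`. -/
def IsDegenerate {V : Type} (G : SimpleGraph V) (d : ℕ) : Prop :=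
  ∀ H : G.Subgraph, H.verts.Nonempty → ∃ v ∈ H.verts, (H.neighborSet v).ncard ≤ d

/-- `c` is an `L`-colouring of `G`: a proper colouring with `c v ∈ L v` for every vertex `v`. -/
def IsListColouring {V C : Type} (G : SimpleGraph V) (L : V → Finset C) (c : V → C) : Prop :=
  (∀ v, c v ∈ L v) ∧ ∀ u v, G.Adj u v → c u ≠ c v

/-- The `k`-fold list-assignment `L` has a fractional packing: there is a probability distribution
`μ` on the `L`-colourings such that for every vertex `v` the colour of `v` is equal to `x` with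
probability `1 / k` for every `x ∈ L v`. -/
def HasFractionalPacking {V C : Type} (G : SimpleGraph V) (L : V → Finset C) (k : ℕ) : Prop :=
  ∃ μ : PMF (V → C), (∀ c ∈ μ.support, IsListColouring G L c) ∧
    ∀ v, ∀ x ∈ L v, (μ.map fun c => c v) x = 1 / (k : ENNReal)

/-- Every `k`-fold list-assignment of `G` has a fractional packing. -/
def EveryAssignmentPacks {V : Type} (G : SimpleGraph V) (k : ℕ) : Prop :=
  ∀ (C : Type) (L : V → Finset C), (∀ v, (L v).card = k) → HasFractionalPacking G L k

/-- The fractional list packing number: the least integer `k ≥ 1` such that every `k`-fold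
list-assignment of `G` has a fractional packing. -/
noncomputable def fractionalListPackingNumber {V : Type} (G : SimpleGraph V) : ℕ :=
  sInf {k : ℕ | 1 ≤ k ∧ EveryAssignmentPacks G k}

open Classical in
lemma exists_low_degree {V : Type} (G : SimpleGraph V) {d d' : ℕ} (hG : IsDegenerate G d)
    (hd : d ≤ d') (W : Finset V) (hW : W.Nonempty) :
    ∃ v ∈ W, (W.filter (G.Adj v)).card ≤ d' := by
  obtain ⟨v, hv, h⟩ := hG ((⊤ : G.Subgraph).induce (W : Set V)) (by simpa using hW)
  have hv' : v ∈ W := by simpa using hv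
  refine ⟨v, hv', ?_⟩
  have e : ((⊤ : G.Subgraph).induce (W : Set V)).neighborSet v =
      ((W.filter (G.Adj v) : Finset V) : Set V) := by
    ext u
    simp only [SimpleGraph.Subgraph.mem_neighborSet, SimpleGraph.Subgraph.induce_adj,
      SimpleGraph.Subgraph.top_adj, Finset.coe_filter, Set.mem_ofPred_eq, Finset.mem_coe]
    tauto
  rw [e, Set.ncard_coe_finset] at h
  omega

/-- **Fractional list packing of degenerate graphs.**  Let `G` be a finite `d`-degenerate graph.

* If `d ≥ 6`, then every `k`-fold list-assignment of `G` with `k ≥ 2 d - 1` has a fractional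
packing, and in particular `χ_ℓ^•(G) ≤ 2 d - 1`.
* If `d ≥ 17`, then every `k`-fold list-assignment of `G` with `k ≥ 7 ⌈d / 4⌉` has a fractional
packing, and in particular `χ_ℓ^•(G) ≤ 7 ⌈d / 4⌉`. -/
theorem result {V : Type} [Finite V] (G : SimpleGraph V) (d : ℕ) (hG : IsDegenerate G d) :
    (6 ≤ d → (∀ k : ℕ, 2 * d - 1 ≤ k → EveryAssignmentPacks G k) ∧
      fractionalListPackingNumber G ≤ 2 * d - 1) ∧
    (17 ≤ d → (∀ k : ℕ, 7 * ⌈(d : ℚ) / 4⌉₊ ≤ k → EveryAssignmentPacks G k) ∧
      fractionalListPackingNumber G ≤ 7 * ⌈(d : ℚ) / 4⌉₊) := by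
  have := Fintype.ofFinite V
  constructor
  · intro hd
    have h1 : ∀ k : ℕ, 2 * d - 1 ≤ k → EveryAssignmentPacks G k := by
      intro k hk C L hL
      refine Pool.Agent.Helper721_F.exists_pmf G L (w := 2) (d := d) hL (by omega) (by omega)
        (by omega) ?_ (exists_low_degree G hG le_rfl)
      intro t ht htk
      exact Pool.Agent.Helper721_F.cond_two d k t hd hk ht htk
    exact ⟨h1, Nat.sInf_le ⟨by omega, h1 _ le_rfl⟩⟩
  · intro hd
    set w : ℕ := ⌈(d : ℚ) / 4⌉₊ with hw
    have hdw : d ≤ 4 * w := by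
      have h := Nat.le_ceil ((d : ℚ) / 4)
      rw [div_le_iff₀ (by norm_num)] at h
      rw [← hw] at h
      have : (d : ℚ) ≤ ((4 * w : ℕ) : ℚ) := by push_cast; linarith
      exact_mod_cast this
    have hw5 : 5 ≤ w := by omega
    have h1 : ∀ k : ℕ, 7 * w ≤ k → EveryAssignmentPacks G k := by
      intro k hk C L hL
      refine Pool.Agent.Helper721_F.exists_pmf G L (w := w) (d := 4 * w) hL (by omega) (by omega)
        (by omega) ?_ (exists_low_degree G hG hdw)
      intro t ht htk
      exact Pool.Agent.Helper721_F.cond_seven_quarters w k t hw5 hk ht htk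
    exact ⟨h1, Nat.sInf_le ⟨by omega, h1 _ le_rfl⟩⟩

end Pool.Agent.Results.MP_cf7e4d_co.SevenQuarters
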